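import Mathlib

/-!
Ordered affine chains mod 2, boundary, cone, and the cup-product cochains used in the proof of
the Hopf theorem on nonsingular bilinear maps.
-/

namespace Pool.Agent.H20.Hopf

open Finset

variable {E : Type*}

/-- mod 2 chains: formal sums of vertex lists -/
abbrev Ch (E : Type*) := List E →₀ ZMod 2

/-- cone with apex `v` -/
noncomputable def cone (v : E) : Ch E →ₗ[ZMod 2] Ch E :=
  Finsupp.lmapDomain (ZMod 2) (ZMod 2) (fun l => v :: l)

/-- the chain map induced by a map of points -/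
noncomputable def mp (φ : E → E) : Ch E →ₗ[ZMod 2] Ch E :=
  Finsupp.lmapDomain (ZMod 2) (ZMod 2) (List.map φ)

/-- boundary of a vertex list (augmented) -/
noncomputable def bdL : List E → Ch E
  | [] => 0
  | v :: l => Finsupp.single l 1 + cone v (bdL l)

/-- linear extension of a function on vertex lists -/
noncomputable def ext {M : Type*} [AddCommGroup M] [Module (ZMod 2) M] (g : List E → M) :
    Ch E →ₗ[ZMod 2] M :=
  Finsupp.linearCombination (ZMod 2) g

/-- boundary -/
noncomputable def bd : Ch E →ₗ[ZMod 2] Ch E := ext bdL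

@[simp] lemma ext_single {M : Type*} [AddCommGroup M] [Module (ZMod 2) M] (g : List E → M)
    (l : List E) : ext g (Finsupp.single l 1) = g l := by
  simp [ext]

@[simp] lemma cone_single (v : E) (l : List E) :
    cone v (Finsupp.single l 1) = Finsupp.single (v :: l) 1 := by
  simp [cone]

@[simp] lemma mp_single (φ : E → E) (l : List E) :
    mp φ (Finsupp.single l 1) = Finsupp.single (l.map φ) 1 := by
  simp [mp]

@[simp] lemma bd_single (l : List E) : bd (Finsupp.single l 1) = bdL l := by
  simp [bd]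

/-- two linear maps that agree on simplices of the support agree -/
lemma lin_congr {M : Type*} [AddCommGroup M] [Module (ZMod 2) M] (f g : Ch E →ₗ[ZMod 2] M)
    {P : List E → Prop} (c : Ch E) (hc : c ∈ Finsupp.supported (ZMod 2) (ZMod 2) {l | P l})
    (h : ∀ l, P l → f (Finsupp.single l 1) = g (Finsupp.single l 1)) : f c = g c := by
  rw [Finsupp.supported_eq_span_single] at hc
  induction hc using Submodule.span_induction with
  | mem x hx =>
    obtain ⟨l, hl, rfl⟩ := hx
    exact h l hl
  | zero => simp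
  | add x y _ _ hx hy => rw [map_add, map_add, hx, hy]
  | smul a x _ hx => rw [map_smul, map_smul, hx]

lemma lin_ext {M : Type*} [AddCommGroup M] [Module (ZMod 2) M] (f g : Ch E →ₗ[ZMod 2] M)
    (h : ∀ l, f (Finsupp.single l 1) = g (Finsupp.single l 1)) : f = g := by
  refine LinearMap.ext fun c => lin_congr f g (P := fun _ => True) c ?_ fun l _ => h l
  rw [Finsupp.mem_supported]
  intro x _
  trivial

/-- support of the image under a linear map -/
lemma supp_map {P Q : List E → Prop} (f : Ch E →ₗ[ZMod 2] Ch E) (c : Ch E)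
    (hc : c ∈ Finsupp.supported (ZMod 2) (ZMod 2) {l | P l})
    (h : ∀ l, P l → f (Finsupp.single l 1) ∈ Finsupp.supported (ZMod 2) (ZMod 2) {l | Q l}) :
    f c ∈ Finsupp.supported (ZMod 2) (ZMod 2) {l | Q l} := by
  rw [Finsupp.supported_eq_span_single] at hc
  induction hc using Submodule.span_induction with
  | mem x hx =>
    obtain ⟨l, hl, rfl⟩ := hx
    exact h l hl
  | zero => simp
  | add x y _ _ hx hy => rw [map_add]; exact Submodule.add_mem _ hx hy
  | smul a x _ hx => rw [map_smul]; exact Submodule.smul_mem _ _ hx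

lemma supp_single {P : List E → Prop} {l : List E} (h : P l) :
    (Finsupp.single l 1 : Ch E) ∈ Finsupp.supported (ZMod 2) (ZMod 2) {l | P l} :=
  Finsupp.single_mem_supported _ _ h

lemma supp_mono {P Q : List E → Prop} {c : Ch E} (h : ∀ l, P l → Q l)
    (hc : c ∈ Finsupp.supported (ZMod 2) (ZMod 2) {l | P l}) :
    c ∈ Finsupp.supported (ZMod 2) (ZMod 2) {l | Q l} :=
  Finsupp.supported_mono (fun l hl => h l hl) hc

lemma bd_cone (v : E) (c : Ch E) : bd (cone v c) = c + cone v (bd c) := by
  have : (bd ∘ₗ cone v : Ch E →ₗ[ZMod 2] Ch E) = LinearMap.id + cone v ∘ₗ bd := by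
    refine lin_ext _ _ fun l => ?_
    simp [bdL]
  exact LinearMap.congr_fun this c

lemma bd_bdL : ∀ l : List E, bd (bdL l) = 0
  | [] => by simp [bdL]
  | v :: l => by
    rw [bdL, map_add, bd_single, bd_cone, bd_bdL l, map_zero, add_zero]
    exact ZModModule.add_self _

lemma bd_bd (c : Ch E) : bd (bd c) = 0 := by
  have : (bd ∘ₗ bd : Ch E →ₗ[ZMod 2] Ch E) = 0 := by
    refine lin_ext _ _ fun l => ?_
    simp [bd_bdL]
  exact LinearMap.congr_fun this c

lemma mp_cone (φ : E → E) (v : E) (c : Ch E) : mp φ (cone v c) = cone (φ v) (mp φ c) := by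
  have : (mp φ ∘ₗ cone v : Ch E →ₗ[ZMod 2] Ch E) = cone (φ v) ∘ₗ mp φ := by
    refine lin_ext _ _ fun l => ?_
    simp
  exact LinearMap.congr_fun this c

lemma mp_bdL (φ : E → E) : ∀ l : List E, mp φ (bdL l) = bdL (l.map φ)
  | [] => by simp [bdL]
  | v :: l => by
    rw [bdL, map_add, mp_single, mp_cone, mp_bdL φ l, List.map_cons, bdL]

lemma mp_bd (φ : E → E) (c : Ch E) : mp φ (bd c) = bd (mp φ c) := by
  have : (mp φ ∘ₗ bd : Ch E →ₗ[ZMod 2] Ch E) = bd ∘ₗ mp φ := by
    refine lin_ext _ _ fun l => ?_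
    simp [mp_bdL]
  exact LinearMap.congr_fun this c

/-- the cup product of the coboundaries of `θ 0, θ 1, …` -/
def W : (ℕ → E → ZMod 2) → List E → ZMod 2
  | _, [] => 0
  | _, [_] => 1
  | θ, u :: v :: l => (θ 0 u + θ 0 v) * W (fun i => θ (i + 1)) (v :: l)

/-- the cup product of the coboundaries of `θ 0, …, θ (d-1)` with `θ d` -/
def A : (ℕ → E → ZMod 2) → List E → ZMod 2
  | _, [] => 0
  | θ, [v] => θ 0 v
  | θ, u :: v :: l => (θ 0 u + θ 0 v) * A (fun i => θ (i + 1)) (v :: l)

lemma A_map {φ : E → E} : ∀ (θ : ℕ → E → ZMod 2) (l : List E), l ≠ [] →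
    (∀ i, ∀ v ∈ l, θ i (φ v) = θ i v + 1) → A θ (l.map φ) = A θ l + W θ l
  | _, [], h, _ => absurd rfl h
  | θ, [v], _, h => by simp [A, W, h 0 v (by simp)]
  | θ, u :: v :: l, _, h => by
    have ih := A_map (φ := φ) (fun i => θ (i + 1)) (v :: l) (by simp)
      (fun i w hw => h (i + 1) w (List.mem_cons_of_mem _ hw))
    rw [List.map_cons] at ih
    rw [List.map_cons, List.map_cons, A, ih, A, W, h 0 u (by simp), h 0 v (by simp)]
    have : (1 : ZMod 2) + 1 = 0 := by decide
    linear_combination (A (fun i => θ (i + 1)) (v :: l) + W (fun i => θ (i + 1)) (v :: l)) * this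

lemma ext_cone {M : Type*} [AddCommGroup M] [Module (ZMod 2) M] (g : List E → M) (v : E)
    (c : Ch E) : ext g (cone v c) = ext (fun l => g (v :: l)) c := by
  have : (ext g ∘ₗ cone v : Ch E →ₗ[ZMod 2] M) = ext (fun l => g (v :: l)) := by
    refine lin_ext _ _ fun l => ?_
    simp
  exact LinearMap.congr_fun this c

lemma A_cons_cone (θ : ℕ → E → ZMod 2) (u v : E) (c : Ch E) :
    ext (A θ) (cone u (cone v c)) =
      (θ 0 u + θ 0 v) * ext (A fun i => θ (i + 1)) (cone v c) := by
  rw [ext_cone, ext_cone, ext_cone]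
  have : (ext (fun l => A θ (u :: v :: l)) : Ch E →ₗ[ZMod 2] ZMod 2) =
      (θ 0 u + θ 0 v) • ext (fun l => A (fun i => θ (i + 1)) (v :: l)) := by
    refine lin_ext _ _ fun l => ?_
    simp [A]
  rw [this]
  simp

lemma A_bdL : ∀ (θ : ℕ → E → ZMod 2) (u v : E) (l : List E),
    ext (A θ) (bdL (u :: v :: l)) = W θ (u :: v :: l)
  | θ, u, v, [] => by
    simp [bdL, A, W]
    ring
  | θ, u, v, x :: l => by
    have ih := A_bdL (fun i => θ (i + 1)) v x l
    have h1 : bdL (u :: v :: x :: l) = Finsupp.single (v :: x :: l) 1 +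
        (Finsupp.single (u :: x :: l) 1 + cone u (cone v (bdL (x :: l)))) := by
      rw [bdL, bdL, map_add, cone_single]
    have h2 : bdL (v :: x :: l) = Finsupp.single (x :: l) 1 + cone v (bdL (x :: l)) := by
      rw [bdL]
    rw [h2, map_add, ext_single] at ih
    rw [h1, map_add, map_add, ext_single, ext_single, A_cons_cone, W, ← ih]
    simp only [A]
    have h0 : ∀ y : ZMod 2, y + y = 0 := by decide
    linear_combination (A (fun i => θ (i + 1)) (x :: l)) * (h0 (θ 0 x))

end Pool.Agent.H20.Hopf
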