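import Pool.Agent.H20.Hopf.Prod

/-!
The Hopf theorem (odd case): a continuous map of `ℝ^r × ℝ^s` to `ℝ^N`, `N = r + s - 2`, which is
odd in each of the two variables vanishes at some point with both components nonzero, provided
that the binomial coefficient `N` over `r - 1` is odd.
-/

namespace Pool.Agent.H20.Hopf

open Finset

/-- first nonzero coordinate positive -/
def PosV {N : ℕ} (y : Fin N → ℝ) : Prop := ∃ a, 0 < y a ∧ ∀ b, b < a → y b = 0

lemma posV_neg {N : ℕ} {y : Fin N → ℝ} (hy : y ≠ 0) : PosV (-y) ↔ ¬ PosV y := by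
  classical
  -- the first nonzero coordinate
  obtain ⟨a, ha, hmin⟩ : ∃ a, y a ≠ 0 ∧ ∀ b, b < a → y b = 0 := by
    have hne : (Finset.univ.filter fun a => y a ≠ 0).Nonempty := by
      by_contra h
      rw [Finset.not_nonempty_iff_eq_empty] at h
      apply hy
      ext a
      by_contra ha
      have : a ∈ (Finset.univ.filter fun a => y a ≠ 0) := by
        simp only [Finset.mem_filter, Finset.mem_univ, true_and]
        exact ha
      rw [h] at this
      simp at this
    refine ⟨_, (Finset.mem_filter.mp (Finset.min'_mem _ hne)).2, fun b hb => ?_⟩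
    by_contra hb'
    have : b ∈ (Finset.univ.filter fun a => y a ≠ 0) := by
      simp only [Finset.mem_filter, Finset.mem_univ, true_and]
      exact hb'
    exact absurd (Finset.min'_le _ b this) (not_le.mpr hb)
  have huniq : ∀ b, (y b ≠ 0 ∧ ∀ c, c < b → y c = 0) → b = a := by
    rintro b ⟨hb1, hb2⟩
    rcases lt_trichotomy a b with h | h | h
    · exact absurd (hb2 a h) ha
    · exact h.symm
    · exact absurd (hmin b h) hb1
  have h1 : PosV y ↔ 0 < y a := by
    constructor
    · rintro ⟨b, hb1, hb2⟩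
      have := huniq b ⟨hb1.ne', hb2⟩
      rwa [← this]
    · intro h
      exact ⟨a, h, hmin⟩
  have h2 : PosV (-y) ↔ 0 < (-y) a := by
    constructor
    · rintro ⟨b, hb1, hb2⟩
      have hb3 : y b ≠ 0 := by
        intro h
        simp [h] at hb1
      have := huniq b ⟨hb3, fun c hc => by simpa using hb2 c hc⟩
      rwa [← this]
    · intro h
      exact ⟨a, h, fun b hb => by simp [hmin b hb]⟩
  rw [h1, h2, Pi.neg_apply, not_lt, neg_pos]
  constructor
  · intro h
    exact h.le
  · intro h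
    exact lt_of_le_of_ne h ha

open Classical in
/-- the sign labels -/
noncomputable def lab {X : Type*} {N : ℕ} (F : X → (Fin N → ℝ)) (i : ℕ) (v : X) : ZMod 2 :=
  if 0 < (if h : i < N then F v ⟨i, h⟩ else 0) ∨
    ((if h : i < N then F v ⟨i, h⟩ else 0) = 0 ∧ PosV (F v)) then 1 else 0

lemma lab_neg {X : Type*} {N : ℕ} {F : X → (Fin N → ℝ)} {u v : X} (h : F u = -F v)
    (hv : F v ≠ 0) (i : ℕ) : lab F i u = lab F i v + 1 := by
  classical
  have h0 : (1 : ZMod 2) + 1 = 0 := by decide
  have e : (if h : i < N then F u ⟨i, h⟩ else 0) = -(if h : i < N then F v ⟨i, h⟩ else 0) := by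
    split_ifs with h1
    · rw [h]; rfl
    · simp
  unfold lab
  rw [e, h]
  generalize (if h : i < N then F v ⟨i, h⟩ else 0) = t
  rcases lt_trichotomy t 0 with ht | ht | ht
  · have h1 : 0 < -t := by linarith
    have h2 : ¬ (0 < t ∨ (t = 0 ∧ PosV (F v))) := by
      rintro (h | h)
      · linarith
      · linarith [h.1]
    rw [if_pos (Or.inl h1), if_neg h2, zero_add]
  · subst ht
    simp only [neg_zero, lt_self_iff_false, true_and, false_or, posV_neg hv]
    by_cases hp : PosV (F v)
    · simp [hp, h0]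
    · simp [hp]
  · have h1 : ¬ (0 < -t ∨ (-t = 0 ∧ PosV (-F v))) := by
      rintro (h | h)
      · linarith
      · linarith [h.1]
    rw [if_neg h1, if_pos (Or.inl ht), h0]

lemma lab_ne {X : Type*} {N : ℕ} {F : X → (Fin N → ℝ)} {u v : X} {i : ℕ} (hi : i < N)
    (h : lab F i u ≠ lab F i v) : |F u ⟨i, hi⟩| ≤ |F u ⟨i, hi⟩ - F v ⟨i, hi⟩| := by
  classical
  unfold lab at h
  rw [dif_pos hi, dif_pos hi] at h
  generalize F u ⟨i, hi⟩ = a at *
  generalize F v ⟨i, hi⟩ = b at *
  rcases lt_trichotomy a 0 with ha | ha | ha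
  · have h1 : ¬ (0 < a ∨ (a = 0 ∧ PosV (F u))) := by
      rintro (h | h)
      · linarith
      · linarith [h.1]
    rw [if_neg h1] at h
    have hb : 0 ≤ b := by
      by_contra hb
      push Not at hb
      have h2 : ¬ (0 < b ∨ (b = 0 ∧ PosV (F v))) := by
        rintro (h | h)
        · linarith
        · linarith [h.1]
      rw [if_neg h2] at h
      exact h rfl
    rw [abs_of_neg ha, abs_of_neg (by linarith)]
    linarith
  · subst ha
    simp
  · rw [if_pos (Or.inl ha)] at h
    have hb : b ≤ 0 := by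
      by_contra hb
      push Not at hb
      rw [if_pos (Or.inl hb)] at h
      exact h rfl
    rw [abs_of_pos ha, abs_of_nonneg (by linarith)]
    linarith

lemma W_ne {X : Type*} {N : ℕ} {F : X → (Fin N → ℝ)} {ε : ℝ} : ∀ (l : List X) (k : ℕ),
    (∀ u ∈ l, ∀ v ∈ l, ∀ i, |F u i - F v i| < ε) → W (fun i => lab F (k + i)) l ≠ 0 →
    ∀ i, ∀ hi : k + i < N, i + 1 < l.length → ∃ w ∈ l, |F w ⟨k + i, hi⟩| < ε
  | [], _, _, _, i, _, h => by simp at h
  | [v], _, _, _, i, _, h => by simp at h
  | u :: v :: l, k, hε, hW, i, hi, h => by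
    have h1 : (lab F k u + lab F k v) ≠ 0 := by
      intro h0
      apply hW
      simp only [W, add_zero, h0, zero_mul]
    have h2 : W (fun i => lab F (k + 1 + i)) (v :: l) ≠ 0 := by
      intro h0
      apply hW
      have : (fun i => lab F (k + (i + 1))) = (fun i => lab F (k + 1 + i)) := by
        funext i
        rw [add_assoc, add_comm 1 i]
      simp only [W, this, h0, mul_zero]
    rcases i with _ | i
    · have h3 : lab F k u ≠ lab F k v := by
        intro h4
        rw [h4] at h1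
        exact h1 (ZModModule.add_self _)
      exact ⟨u, by simp, lt_of_le_of_lt (lab_ne (F := F) hi h3) (hε u (by simp) v (by simp) _)⟩
    · have h5 := W_ne (v :: l) (k + 1)
        (fun a ha b hb => hε a (List.mem_cons_of_mem _ ha) b (List.mem_cons_of_mem _ hb)) h2 i
        (by omega) (by simpa using h)
      obtain ⟨w, hw, hw2⟩ := h5
      refine ⟨w, List.mem_cons_of_mem _ hw, ?_⟩
      have e : (⟨k + (i + 1), hi⟩ : Fin N) = ⟨k + 1 + i, by omega⟩ := by
        apply Fin.ext
        simp only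
        omega
      rw [e]
      exact hw2

/-- the Hopf theorem in the odd case -/
theorem hopf {r s N : ℕ} (hr : 0 < r) (hs : 0 < s) (hN : N + 2 = r + s)
    (hodd : Odd (N.choose (r - 1))) (F : EE r s → (Fin N → ℝ)) (hF : Continuous F)
    (h1 : ∀ v, F (T1 r s v) = -F v) (h2 : ∀ v, F (T2 r s v) = -F v) :
    ∃ v, v.1 ≠ 0 ∧ v.2 ≠ 0 ∧ F v = 0 := by
  classical
  by_contra hcon
  push Not at hcon
  set i := r - 1 with hi
  set j := s - 1 with hj
  have hij : i + j = N := by omega
  set c := hh r s i j with hc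
  have hOk := hh_Ok r s _ i j rfl (by omega) (by omega)
  rw [← hc] at hOk
  -- the compact set
  set K : Set (EE r s) := ⋃ l ∈ c.support, convexHull ℝ {x | x ∈ l} with hK
  have hKc : IsCompact K := by
    refine c.support.isCompact_biUnion fun l _ => ?_
    exact (List.finite_toSet l).isCompact_convexHull (𝕜 := ℝ)
  have hsupp : ∀ l ∈ c.support, Ok r s (i + j + 1) (Reg r i ×ˢ Reg s j) l := by
    intro l hl
    exact (Finsupp.mem_supported _ _).mp hOk hl
  have hKne : ∀ v ∈ K, F v ≠ 0 := by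
    intro v hv
    rw [hK] at hv
    simp only [Set.mem_iUnion] at hv
    obtain ⟨l, hl, hv⟩ := hv
    have := (hsupp l hl).2 hv
    exact hcon v this.1.1 this.2.1
  obtain ⟨ε', hε', hmin⟩ := hKc.exists_forall_le' (f := fun v => ‖F v‖) (a := 0)
    (hF.norm.continuousOn) (fun v hv => norm_pos_iff.mpr (hKne v hv))
  set ε := ε' / 2 with hε
  have hε0 : 0 < ε := by positivity
  have huc := hKc.uniformContinuousOn_of_continuous hF.continuousOn
  obtain ⟨δ, hδ0, hδ⟩ := Metric.uniformContinuousOn_iff.mp huc ε hε0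
  -- bound of the diameters
  obtain ⟨δ₀, hδ₀0, hδ₀⟩ : ∃ δ₀ : ℝ, 0 ≤ δ₀ ∧ ∀ l ∈ c.support, ∀ u ∈ l, ∀ v ∈ l,
      dist u v ≤ δ₀ := by
    obtain ⟨δ₀, h⟩ := Metric.isBounded_iff.mp hKc.isBounded
    refine ⟨max δ₀ 0, le_max_right _ _, fun l hl u hu v hv => (h ?_ ?_).trans (le_max_left _ _)⟩
    · rw [hK]
      simp only [Set.mem_iUnion]
      exact ⟨l, hl, subset_convexHull ℝ _ hu⟩
    · rw [hK]
      simp only [Set.mem_iUnion]
      exact ⟨l, hl, subset_convexHull ℝ _ hv⟩
  have hcS : c ∈ Finsupp.supported (ZMod 2) (ZMod 2) {l | Sz (i + j + 1) K δ₀ l} := by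
    rw [Finsupp.mem_supported]
    intro l hl
    refine ⟨(hsupp l hl).1, ?_, hδ₀ l hl⟩
    intro x hx
    rw [hK]
    simp only [Set.mem_iUnion]
    exact ⟨l, hl, hx⟩
  obtain ⟨M, hM⟩ : ∃ M : ℕ, (((i + j : ℕ) : ℝ) / ((i + j : ℕ) + 1)) ^ M * δ₀ < δ := by
    have hlt : ((i + j : ℕ) : ℝ) / ((i + j : ℕ) + 1) < 1 := by
      rw [div_lt_one (by positivity)]
      linarith
    have h0 : (0 : ℝ) ≤ ((i + j : ℕ) : ℝ) / ((i + j : ℕ) + 1) := by positivity
    have ht := (tendsto_pow_atTop_nhds_zero_of_lt_one h0 hlt).mul_const δ₀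
    rw [zero_mul] at ht
    exact (ht.eventually (gt_mem_nhds hδ0)).exists
  have hsmall := sd_iter_mesh hδ₀0 hcS M
  have hval := pascal r s (lab F)
    (fun i v hv1 hv2 => lab_neg (h1 v) (hcon v hv1 hv2) i)
    (fun i v hv1 hv2 => lab_neg (h2 v) (hcon v hv1 hv2) i) M _ i j rfl (by omega) (by omega)
  have hzero : ext (W (lab F)) (HH r s M i j) = 0 := by
    have : ext (W (lab F)) (HH r s M i j) = (0 : Ch (EE r s) →ₗ[ZMod 2] ZMod 2)
        (HH r s M i j) := by
      refine lin_congr _ _ (P := fun l => Sz (i + j + 1) K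
        ((((i + j : ℕ) : ℝ) / ((i + j : ℕ) + 1)) ^ M * δ₀) l) _ hsmall ?_
      rintro l ⟨hl1, hl2, hl3⟩
      rw [ext_single, LinearMap.zero_apply]
      by_contra hW
      have hlK : ∀ u ∈ l, u ∈ K := fun u hu => hl2 (subset_convexHull ℝ _ hu)
      have hclose : ∀ u ∈ l, ∀ v ∈ l, ∀ a, |F u a - F v a| < ε := by
        intro u hu v hv a
        have h3 := hδ u (hlK u hu) v (hlK v hv) (lt_of_le_of_lt (hl3 u hu v hv) hM)
        have h4 : dist (F u a) (F v a) ≤ dist (F u) (F v) := dist_le_pi_dist _ _ _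
        rw [Real.dist_eq] at h4
        linarith
      obtain ⟨v₀, hv₀⟩ : ∃ v₀, v₀ ∈ l := by
        rcases l with _ | ⟨v₀, l⟩
        · simp at hl1
        · exact ⟨v₀, by simp⟩
      have hW' : W (fun i => lab F (0 + i)) l ≠ 0 := by
        simpa only [zero_add] using hW
      have hall : ∀ a : Fin N, |F v₀ a| < ε' := by
        intro a
        obtain ⟨w, hw, hw2⟩ := W_ne l 0 hclose hW' a (by simp [a.2]) (by
          rw [hl1, hij]
          have := a.2
          omega)
        have e : (⟨0 + (a : ℕ), by simp [a.2]⟩ : Fin N) = a := by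
          apply Fin.ext
          simp
        rw [e] at hw2
        have h5 := hclose v₀ hv₀ w hw a
        have h6 : |F v₀ a| ≤ |F v₀ a - F w a| + |F w a| := by
          have := abs_add_le (F v₀ a - F w a) (F w a)
          simpa using this
        rw [hε] at h5 hw2
        linarith
      have h7 : ‖F v₀‖ < ε' := by
        rw [pi_norm_lt_iff hε']
        intro a
        rw [Real.norm_eq_abs]
        exact hall a
      exact absurd (hmin v₀ (hlK v₀ hv₀)) (not_le.mpr h7)
    rw [this, LinearMap.zero_apply]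
  rw [hzero, hij] at hval
  have : ((N.choose i : ℕ) : ZMod 2) = 1 := by
    obtain ⟨k, hk⟩ := hodd
    rw [hk]
    push_cast
    have : (2 : ZMod 2) = 0 := by decide
    rw [this]
    ring
  rw [this] at hval
  exact absurd hval (by decide)

end Pool.Agent.H20.Hopf
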