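import Pool.Agent.H20.Hopf.Sub

/-!
The fundamental chains of products of hemispheres and the Pascal recursion.
-/

namespace Pool.Agent.H20.Hopf

open Finset

variable (r s : ℕ)

/-- the ambient space -/
abbrev EE := (Fin r → ℝ) × (Fin s → ℝ)

/-- first sign change -/
def T1 : EE r s →ₗ[ℝ] EE r s :=
  LinearMap.prodMap (-LinearMap.id) LinearMap.id

/-- second sign change -/
def T2 : EE r s →ₗ[ℝ] EE r s :=
  LinearMap.prodMap LinearMap.id (-LinearMap.id)

variable {r s}

@[simp] lemma T1_apply (v : EE r s) : T1 r s v = (-v.1, v.2) := rfl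
@[simp] lemma T2_apply (v : EE r s) : T2 r s v = (v.1, -v.2) := rfl

/-- coordinate vector with natural number index -/
def ee (m i : ℕ) : Fin m → ℝ := fun a => if (a : ℕ) = i then 1 else 0

variable (r s)

/-- `1 + T₁` on chains -/
noncomputable def D1 (c : Ch (EE r s)) : Ch (EE r s) := c + mp (T1 r s) c
/-- `1 + T₂` on chains -/
noncomputable def D2 (c : Ch (EE r s)) : Ch (EE r s) := c + mp (T2 r s) c

/-- product of hemispheres of dimensions `i` and `j` -/
noncomputable def hh : ℕ → ℕ → Ch (EE r s)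
  | 0, 0 => cone (ee r 0, ee s 0) (Finsupp.single [] 1)
  | i + 1, 0 => cone (ee r (i + 1), ee s 0) (D1 r s (hh i 0))
  | 0, j + 1 => cone (ee r 0, ee s (j + 1)) (D2 r s (hh 0 j))
  | i + 1, j + 1 =>
      cone (ee r (i + 1), ee s (j + 1)) (D1 r s (hh i (j + 1)) + D2 r s (hh (i + 1) j))

/-- boundary of `hh` -/
noncomputable def zz : ℕ → ℕ → Ch (EE r s)
  | 0, 0 => Finsupp.single [] 1
  | i + 1, 0 => D1 r s (hh r s i 0)
  | 0, j + 1 => D2 r s (hh r s 0 j)
  | i + 1, j + 1 => D1 r s (hh r s i (j + 1)) + D2 r s (hh r s (i + 1) j)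

lemma hh_eq (i j : ℕ) : hh r s i j = cone (ee r i, ee s j) (zz r s i j) := by
  rcases i with _ | i <;> rcases j with _ | j <;> simp only [hh, zz]

lemma mp_mp (φ ψ : EE r s → EE r s) (c : Ch (EE r s)) : mp φ (mp ψ c) = mp (φ ∘ ψ) c := by
  have : (mp φ ∘ₗ mp ψ : Ch (EE r s) →ₗ[ZMod 2] Ch (EE r s)) = mp (φ ∘ ψ) := by
    refine lin_ext _ _ fun l => ?_
    simp
  exact LinearMap.congr_fun this c

lemma mp_id (c : Ch (EE r s)) : mp id c = c := by
  have : (mp id : Ch (EE r s) →ₗ[ZMod 2] Ch (EE r s)) = LinearMap.id := by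
    refine lin_ext _ _ fun l => ?_
    simp
  exact LinearMap.congr_fun this c

lemma D1_add (c d : Ch (EE r s)) : D1 r s (c + d) = D1 r s c + D1 r s d := by
  simp only [D1, map_add]
  abel

lemma D2_add (c d : Ch (EE r s)) : D2 r s (c + d) = D2 r s c + D2 r s d := by
  simp only [D2, map_add]
  abel

lemma D1_D1 (c : Ch (EE r s)) : D1 r s (D1 r s c) = 0 := by
  have h1 : mp (T1 r s) (mp (T1 r s) c) = c := by
    rw [mp_mp]
    have : (⇑(T1 r s) ∘ ⇑(T1 r s)) = id := by
      ext v <;> simp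
    rw [this, mp_id]
  simp only [D1, map_add, h1]
  rw [add_comm (mp _ c) c]
  exact ZModModule.add_self _

lemma D2_D2 (c : Ch (EE r s)) : D2 r s (D2 r s c) = 0 := by
  have h1 : mp (T2 r s) (mp (T2 r s) c) = c := by
    rw [mp_mp]
    have : (⇑(T2 r s) ∘ ⇑(T2 r s)) = id := by
      ext v <;> simp
    rw [this, mp_id]
  simp only [D2, map_add, h1]
  rw [add_comm (mp _ c) c]
  exact ZModModule.add_self _

lemma D1_D2 (c : Ch (EE r s)) : D1 r s (D2 r s c) = D2 r s (D1 r s c) := by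
  have h1 : mp (T1 r s) (mp (T2 r s) c) = mp (T2 r s) (mp (T1 r s) c) := by
    rw [mp_mp, mp_mp]
    rfl
  simp only [D1, D2, map_add, h1]
  abel

lemma bd_D1 (c : Ch (EE r s)) : bd (D1 r s c) = D1 r s (bd c) := by
  simp only [D1, map_add, mp_bd]

lemma bd_D2 (c : Ch (EE r s)) : bd (D2 r s c) = D2 r s (bd c) := by
  simp only [D2, map_add, mp_bd]

lemma mp_nil (φ : EE r s → EE r s) :
    mp φ (Finsupp.single [] 1) = (Finsupp.single [] 1 : Ch (EE r s)) := by
  simp

lemma D1_nil : D1 r s (Finsupp.single [] 1) = 0 := by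
  rw [D1, mp_nil]
  exact ZModModule.add_self _

lemma D2_nil : D2 r s (Finsupp.single [] 1) = 0 := by
  rw [D2, mp_nil]
  exact ZModModule.add_self _

lemma bd_zz : ∀ m i j : ℕ, i + j = m → bd (zz r s i j) = 0 := by
  intro m
  induction m with
  | zero =>
    intro i j h
    obtain rfl : i = 0 := by omega
    obtain rfl : j = 0 := by omega
    simp [zz, bdL]
  | succ m ih =>
    have hb : ∀ i j : ℕ, i + j = m → bd (hh r s i j) = zz r s i j := by
      intro i j h
      rw [hh_eq, bd_cone, ih i j h, map_zero, add_zero]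
    intro i j h
    rcases i with _ | i
    · rcases j with _ | j
      · omega
      · rw [zz, bd_D2, hb 0 j (by omega)]
        rcases j with _ | j
        · rw [zz, D2_nil]
        · rw [zz, D2_D2]
    · rcases j with _ | j
      · rw [zz, bd_D1, hb i 0 (by omega)]
        rcases i with _ | i
        · rw [zz, D1_nil]
        · rw [zz, D1_D1]
      · rw [zz, map_add, bd_D1, bd_D2, hb i (j + 1) (by omega), hb (i + 1) j (by omega)]
        rcases i with _ | i <;> rcases j with _ | j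
        · simp only [zz]
          rw [D1_D2]
          exact ZModModule.add_self _
        · simp only [zz]
          rw [D1_D2, D2_add, D2_D2, add_zero]
          exact ZModModule.add_self _
        · simp only [zz]
          rw [D1_add, D1_D1, zero_add, D1_D2]
          exact ZModModule.add_self _
        · simp only [zz]
          rw [D1_add, D1_D1, zero_add, D2_add, D2_D2, add_zero, D1_D2]
          exact ZModModule.add_self _

lemma bd_hh (i j : ℕ) : bd (hh r s i j) = zz r s i j := by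
  rw [hh_eq, bd_cone, bd_zz r s _ i j rfl, map_zero, add_zero]

/-- the region of the half space -/
def Reg (m i : ℕ) : Set (Fin m → ℝ) :=
  {x | x ≠ 0 ∧ (∀ a : Fin m, (a : ℕ) = i → 0 ≤ x a) ∧ ∀ a : Fin m, i < (a : ℕ) → x a = 0}

lemma ee_mem {m i : ℕ} (hi : i < m) : ee m i ∈ Reg m i := by
  refine ⟨?_, ?_, ?_⟩
  · intro h
    have := congrFun h ⟨i, hi⟩
    simp [ee] at this
  · intro a ha
    simp [ee, ha]
  · intro a ha
    simp [ee, ha.ne']

lemma seg_mem {m i : ℕ} (hi : i < m) {x : Fin m → ℝ} (hx : x ∈ Reg m i)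
    {α β : ℝ} (hα : 0 ≤ α) (hβ : 0 ≤ β) (hαβ : α + β = 1) :
    α • ee m i + β • x ∈ Reg m i := by
  obtain ⟨h1, h2, h3⟩ := hx
  refine ⟨?_, ?_, ?_⟩
  · intro h
    rcases hα.eq_or_lt with h0 | h0
    · subst h0
      obtain rfl : β = 1 := by linarith
      apply h1
      simpa using h
    · have := congrFun h ⟨i, hi⟩
      simp only [Pi.add_apply, Pi.smul_apply, ee, if_true, smul_eq_mul, mul_one,
        Pi.zero_apply] at this
      have h4 := h2 ⟨i, hi⟩ rfl
      have : 0 ≤ β * x ⟨i, hi⟩ := mul_nonneg hβ h4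
      linarith
  · intro a ha
    have h4 := h2 a ha
    simp only [Pi.add_apply, Pi.smul_apply, ee, ha, if_true, smul_eq_mul, mul_one]
    positivity
  · intro a ha
    have h4 := h3 a ha
    simp [ee, ha.ne', h4]

lemma neg_mem_succ {m i : ℕ} {x : Fin m → ℝ} (hx : x ∈ Reg m i) : -x ∈ Reg m (i + 1) := by
  obtain ⟨h1, h2, h3⟩ := hx
  refine ⟨neg_ne_zero.mpr h1, ?_, ?_⟩
  · intro a ha
    simp [h3 a (by omega)]
  · intro a ha
    simp [h3 a (by omega)]

lemma mem_succ {m i : ℕ} {x : Fin m → ℝ} (hx : x ∈ Reg m i) : x ∈ Reg m (i + 1) := by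
  obtain ⟨h1, h2, h3⟩ := hx
  refine ⟨h1, ?_, ?_⟩
  · intro a ha
    simp [h3 a (by omega)]
  · intro a ha
    simp [h3 a (by omega)]

/-- simplices of dimension `i + j` whose convex hull lies in the region -/
def Ok (n : ℕ) (K : Set (EE r s)) (l : List (EE r s)) : Prop :=
  l.length = n ∧ convexHull ℝ {x | x ∈ l} ⊆ K

lemma Ok_map {n : ℕ} {K K' : Set (EE r s)} (φ : EE r s →ₗ[ℝ] EE r s) (h : ∀ x ∈ K, φ x ∈ K')
    {c : Ch (EE r s)} (hc : c ∈ Finsupp.supported (ZMod 2) (ZMod 2) {l | Ok r s n K l}) :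
    mp φ c ∈ Finsupp.supported (ZMod 2) (ZMod 2) {l | Ok r s n K' l} := by
  refine supp_map (P := fun l => Ok r s n K l) (Q := fun l => Ok r s n K' l) _ _ hc ?_
  rintro l ⟨h1, h2⟩
  rw [mp_single]
  refine supp_single (P := fun l => Ok r s n K' l) ⟨by simp [h1], ?_⟩
  have h3 : {x | x ∈ l.map φ} = φ '' {x | x ∈ l} := by
    ext x
    simp
  rw [h3, ← φ.image_convexHull]
  rintro _ ⟨x, hx, rfl⟩
  exact h x (h2 hx)

lemma cone_Ok {n i j : ℕ} (hi : i < r) (hj : j < s) {c : Ch (EE r s)}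
    (hc : c ∈ Finsupp.supported (ZMod 2) (ZMod 2) {l | Ok r s n (Reg r i ×ˢ Reg s j) l}) :
    cone (ee r i, ee s j) c ∈ Finsupp.supported (ZMod 2) (ZMod 2)
      {l | Ok r s (n + 1) (Reg r i ×ˢ Reg s j) l} := by
  refine supp_map (P := fun l => Ok r s n (Reg r i ×ˢ Reg s j) l)
    (Q := fun l => Ok r s (n + 1) (Reg r i ×ˢ Reg s j) l) _ _ hc ?_
  rintro l ⟨h1, h2⟩
  rw [cone_single]
  refine supp_single (P := fun l => Ok r s (n + 1) (Reg r i ×ˢ Reg s j) l) ⟨by simp [h1], ?_⟩
  have h3 : {x | x ∈ ((ee r i, ee s j) : EE r s) :: l} =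
      insert ((ee r i, ee s j) : EE r s) {x | x ∈ l} := by
    ext x
    simp
  rw [h3]
  rcases l with _ | ⟨v, l⟩
  · have h4 : {x : EE r s | x ∈ ([] : List (EE r s))} = ∅ := by
      ext x
      simp
    rw [h4, insert_empty_eq, convexHull_singleton]
    rintro x hx
    rw [Set.mem_singleton_iff] at hx
    subst hx
    exact ⟨ee_mem hi, ee_mem hj⟩
  · rw [convexHull_insert ⟨v, by simp⟩]
    intro x hx
    rw [mem_convexJoin] at hx
    obtain ⟨a, ha, b, hb, hx⟩ := hx
    rw [Set.mem_singleton_iff] at ha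
    subst ha
    obtain ⟨α, β, hα, hβ, hαβ, rfl⟩ := hx
    obtain ⟨hb1, hb2⟩ := h2 hb
    exact ⟨seg_mem hi hb1 hα hβ hαβ, seg_mem hj hb2 hα hβ hαβ⟩

lemma Ok_mono {n : ℕ} {K K' : Set (EE r s)} (h : K ⊆ K') {c : Ch (EE r s)}
    (hc : c ∈ Finsupp.supported (ZMod 2) (ZMod 2) {l | Ok r s n K l}) :
    c ∈ Finsupp.supported (ZMod 2) (ZMod 2) {l | Ok r s n K' l} :=
  supp_mono (fun _ hl => ⟨hl.1, hl.2.trans h⟩) hc

lemma D1_Ok {n i j : ℕ} {c : Ch (EE r s)}
    (hc : c ∈ Finsupp.supported (ZMod 2) (ZMod 2) {l | Ok r s n (Reg r i ×ˢ Reg s j) l}) :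
    D1 r s c ∈ Finsupp.supported (ZMod 2) (ZMod 2)
      {l | Ok r s n (Reg r (i + 1) ×ˢ Reg s j) l} := by
  refine Submodule.add_mem _ ?_ ?_
  · exact Ok_mono r s (Set.prod_mono (fun x hx => mem_succ hx) subset_rfl) hc
  · exact Ok_map r s (K' := Reg r (i + 1) ×ˢ Reg s j) (T1 r s)
      (fun x hx => ⟨neg_mem_succ hx.1, hx.2⟩) hc

lemma D2_Ok {n i j : ℕ} {c : Ch (EE r s)}
    (hc : c ∈ Finsupp.supported (ZMod 2) (ZMod 2) {l | Ok r s n (Reg r i ×ˢ Reg s j) l}) :
    D2 r s c ∈ Finsupp.supported (ZMod 2) (ZMod 2)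
      {l | Ok r s n (Reg r i ×ˢ Reg s (j + 1)) l} := by
  refine Submodule.add_mem _ ?_ ?_
  · exact Ok_mono r s (Set.prod_mono subset_rfl (fun x hx => mem_succ hx)) hc
  · exact Ok_map r s (K' := Reg r i ×ˢ Reg s (j + 1)) (T2 r s)
      (fun x hx => ⟨hx.1, neg_mem_succ hx.2⟩) hc

lemma hh_Ok : ∀ m i j : ℕ, i + j = m → i < r → j < s →
    hh r s i j ∈ Finsupp.supported (ZMod 2) (ZMod 2)
      {l | Ok r s (i + j + 1) (Reg r i ×ˢ Reg s j) l} := by
  intro m
  induction m with
  | zero =>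
    intro i j h hi hj
    obtain rfl : i = 0 := by omega
    obtain rfl : j = 0 := by omega
    rw [hh]
    refine cone_Ok r s hi hj ?_
    refine supp_single (P := fun l => Ok r s (0 + 0) (Reg r 0 ×ˢ Reg s 0) l) ⟨rfl, ?_⟩
    have h4 : {x : EE r s | x ∈ ([] : List (EE r s))} = ∅ := by
      ext x
      simp
    rw [h4, convexHull_empty]
    exact Set.empty_subset _
  | succ m ih =>
    intro i j h hi hj
    rcases i with _ | i
    · rcases j with _ | j
      · omega
      · rw [hh]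
        have h1 := ih 0 j (by omega) hi (by omega)
        exact cone_Ok r s hi hj (D2_Ok r s h1)
    · rcases j with _ | j
      · rw [hh]
        have h1 := ih i 0 (by omega) (by omega) hj
        have h2 := D1_Ok r s h1
        have h3 := cone_Ok r s hi hj h2
        exact h3
      · rw [hh]
        have h1 := D1_Ok r s (ih i (j + 1) (by omega) (by omega) hj)
        have h2 := D2_Ok r s (ih (i + 1) j (by omega) hi (by omega))
        have e : i + 1 + j + 1 = i + (j + 1) + 1 := by ring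
        rw [e] at h2
        have h3 := cone_Ok r s hi hj (Submodule.add_mem _ h1 h2)
        have e' : i + 1 + (j + 1) + 1 = i + (j + 1) + 1 + 1 := by ring
        rw [e']
        exact h3

/-- subdivided chains -/
noncomputable def HH (M i j : ℕ) : Ch (EE r s) := (sd (i + j + 1))^[M] (hh r s i j)

lemma D1_iter (n M : ℕ) (c : Ch (EE r s)) :
    (sd n)^[M] (D1 r s c) = D1 r s ((sd n)^[M] c) := by
  rw [D1, sd_iter_add, D1, mp_sd_iter]

lemma D2_iter (n M : ℕ) (c : Ch (EE r s)) :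
    (sd n)^[M] (D2 r s c) = D2 r s ((sd n)^[M] c) := by
  rw [D2, sd_iter_add, D2, mp_sd_iter]

lemma bd_HH {i j : ℕ} (hi : i < r) (hj : j < s) (M : ℕ) :
    bd (HH r s M i j) = (sd (i + j))^[M] (zz r s i j) := by
  rw [HH, bd_sd_iter (supp_mono (fun l hl => hl.1) (hh_Ok r s _ i j rfl hi hj)), bd_hh]

lemma supp_of_Ok {n : ℕ} {K : Set (EE r s)} {c : Ch (EE r s)}
    (hc : c ∈ Finsupp.supported (ZMod 2) (ZMod 2) {l | Ok r s (n + 1) K l}) (M : ℕ) :
    (sd (n + 1))^[M] c ∈ Finsupp.supported (ZMod 2) (ZMod 2) {l | Ok r s (n + 1) K l} := by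
  induction M with
  | zero => simpa using hc
  | succ M ih =>
    rw [Function.iterate_succ_apply']
    refine supp_map (P := fun l => Ok r s (n + 1) K l) (Q := fun l => Ok r s (n + 1) K l) _ _
      ih ?_
    rintro l ⟨h1, h2⟩
    obtain ⟨δ, hδ0, hδ⟩ : ∃ δ : ℝ, 0 ≤ δ ∧ ∀ u ∈ l, ∀ v ∈ l, dist u v ≤ δ := by
      have hb : Bornology.IsBounded {x | x ∈ l} := (List.finite_toSet l).isBounded
      obtain ⟨δ, hδ⟩ := Metric.isBounded_iff.mp hb
      exact ⟨max δ 0, le_max_right _ _, fun u hu v hv => (hδ hu hv).trans (le_max_left _ _)⟩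
    refine supp_mono ?_ (sd_mesh n δ l hδ0 h1 hδ)
    rintro l' ⟨h3, h4, -⟩
    exact ⟨h3, h4.trans h2⟩

/-- the Pascal recursion -/
lemma pascal (θ : ℕ → EE r s → ZMod 2)
    (h1 : ∀ i, ∀ v : EE r s, v.1 ≠ 0 → v.2 ≠ 0 → θ i (T1 r s v) = θ i v + 1)
    (h2 : ∀ i, ∀ v : EE r s, v.1 ≠ 0 → v.2 ≠ 0 → θ i (T2 r s v) = θ i v + 1)
    (M : ℕ) : ∀ m i j : ℕ, i + j = m → i < r → j < s →
    ext (W θ) (HH r s M i j) = ((i + j).choose i : ZMod 2) := by
  -- evaluation of the symmetrized chains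
  have hreg : ∀ {i j : ℕ}, Reg r i ×ˢ Reg s j ⊆ {v : EE r s | v.1 ≠ 0 ∧ v.2 ≠ 0} :=
    fun {i j} v hv => ⟨hv.1.1, hv.2.1⟩
  have eD1 : ∀ (n : ℕ) (c : Ch (EE r s)), c ∈ Finsupp.supported (ZMod 2) (ZMod 2)
      {l | Ok r s (n + 1) {v : EE r s | v.1 ≠ 0 ∧ v.2 ≠ 0} l} →
      ext (A θ) (D1 r s c) = ext (W θ) c := by
    intro n c hc
    have : (ext (A θ) ∘ₗ mp (T1 r s) : Ch (EE r s) →ₗ[ZMod 2] ZMod 2) c =
        (ext (A θ) + ext (W θ)) c := by
      refine lin_congr _ _
        (P := fun l => Ok r s (n + 1) {v : EE r s | v.1 ≠ 0 ∧ v.2 ≠ 0} l) c hc ?_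
      rintro l ⟨hl1, hl2⟩
      rw [LinearMap.comp_apply, mp_single, ext_single, LinearMap.add_apply, ext_single,
        ext_single]
      refine A_map θ l (by rintro rfl; simp at hl1) fun i v hv => ?_
      have := hl2 (subset_convexHull ℝ _ hv)
      exact h1 i v this.1 this.2
    rw [LinearMap.comp_apply, LinearMap.add_apply] at this
    rw [D1, map_add, this, ← add_assoc, ZModModule.add_self, zero_add]
  have eD2 : ∀ (n : ℕ) (c : Ch (EE r s)), c ∈ Finsupp.supported (ZMod 2) (ZMod 2)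
      {l | Ok r s (n + 1) {v : EE r s | v.1 ≠ 0 ∧ v.2 ≠ 0} l} →
      ext (A θ) (D2 r s c) = ext (W θ) c := by
    intro n c hc
    have : (ext (A θ) ∘ₗ mp (T2 r s) : Ch (EE r s) →ₗ[ZMod 2] ZMod 2) c =
        (ext (A θ) + ext (W θ)) c := by
      refine lin_congr _ _
        (P := fun l => Ok r s (n + 1) {v : EE r s | v.1 ≠ 0 ∧ v.2 ≠ 0} l) c hc ?_
      rintro l ⟨hl1, hl2⟩
      rw [LinearMap.comp_apply, mp_single, ext_single, LinearMap.add_apply, ext_single,
        ext_single]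
      refine A_map θ l (by rintro rfl; simp at hl1) fun i v hv => ?_
      have := hl2 (subset_convexHull ℝ _ hv)
      exact h2 i v this.1 this.2
    rw [LinearMap.comp_apply, LinearMap.add_apply] at this
    rw [D2, map_add, this, ← add_assoc, ZModModule.add_self, zero_add]
  have eBd : ∀ (n : ℕ) (c : Ch (EE r s)), c ∈ Finsupp.supported (ZMod 2) (ZMod 2)
      {l | l.length = n + 2} → ext (A θ) (bd c) = ext (W θ) c := by
    intro n c hc
    have : (ext (A θ) ∘ₗ bd : Ch (EE r s) →ₗ[ZMod 2] ZMod 2) c = ext (W θ) c := by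
      refine lin_congr _ _ (P := fun l => l.length = n + 2) c hc ?_
      intro l hl
      rcases l with _ | ⟨u, _ | ⟨v, l⟩⟩
      · simp at hl
      · simp at hl
      · rw [LinearMap.comp_apply, bd_single, A_bdL, ext_single]
    exact this
  have hHH : ∀ i j : ℕ, i < r → j < s → HH r s M i j ∈ Finsupp.supported (ZMod 2) (ZMod 2)
      {l | Ok r s (i + j + 1) (Reg r i ×ˢ Reg s j) l} := fun i j hi hj =>
    supp_of_Ok r s (hh_Ok r s _ i j rfl hi hj) M
  intro m
  induction m with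
  | zero =>
    intro i j h hi hj
    obtain rfl : i = 0 := by omega
    obtain rfl : j = 0 := by omega
    have h3 : ∀ M : ℕ, (sd (0 + 0 + 1))^[M] (hh r s 0 0) =
        (Finsupp.single [((ee r 0, ee s 0) : EE r s)] 1 : Ch (EE r s)) := by
      intro M
      induction M with
      | zero => simp [hh]
      | succ M ih =>
        rw [Function.iterate_succ_apply', ih, sd_succ_single]
        simp [sd, bdL, bary]
    rw [HH, h3, ext_single]
    simp [W]
  | succ m ih =>
    intro i j h hi hj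
    have hlen : HH r s M i j ∈ Finsupp.supported (ZMod 2) (ZMod 2) {l | l.length = m + 2} := by
      have := supp_mono (fun l hl => hl.1) (hHH i j hi hj)
      rw [h] at this
      exact this
    rw [← eBd m _ hlen, bd_HH r s hi hj]
    rcases i with _ | i
    · rcases j with _ | j
      · omega
      · rw [zz, D2_iter]
        have h5 := hHH 0 j hi (by omega)
        have h6 : HH r s M 0 j = (sd (0 + (j + 1)))^[M] (hh r s 0 j) := rfl
        rw [← h6, eD2 _ _ (Ok_mono r s hreg h5), ih 0 j (by omega) hi (by omega)]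
        simp
    · rcases j with _ | j
      · rw [zz, D1_iter]
        have h5 := hHH i 0 (by omega) hj
        have h6 : HH r s M i 0 = (sd (i + 1 + 0))^[M] (hh r s i 0) := rfl
        rw [← h6, eD1 _ _ (Ok_mono r s hreg h5), ih i 0 (by omega) (by omega) hj]
        simp
      · rw [zz, sd_iter_add, D1_iter, D2_iter, map_add]
        have h5 := hHH i (j + 1) (by omega) hj
        have h7 := hHH (i + 1) j hi (by omega)
        have h6 : HH r s M i (j + 1) = (sd (i + 1 + (j + 1)))^[M] (hh r s i (j + 1)) := by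
          rw [HH]
          have : i + (j + 1) + 1 = i + 1 + (j + 1) := by ring
          rw [this]
        have h8 : HH r s M (i + 1) j = (sd (i + 1 + (j + 1)))^[M] (hh r s (i + 1) j) := rfl
        rw [← h6, ← h8, eD1 _ _ (Ok_mono r s hreg h5), eD2 _ _ (Ok_mono r s hreg h7),
          ih i (j + 1) (by omega) (by omega) hj, ih (i + 1) j (by omega) hi (by omega)]
        have e1 : i + 1 + (j + 1) = (i + (j + 1)) + 1 := by ring
        have e2 : i + 1 + j = i + (j + 1) := by ring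
        rw [e1, Nat.choose_succ_succ, e2]
        push_cast
        ring

end Pool.Agent.H20.Hopf
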