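import Pool.Agent.H20.Hopf.Chain

/-!
Barycentric subdivision of affine chains: chain map, naturality, mesh.
-/

namespace Pool.Agent.H20.Hopf

open Finset

variable {E : Type*} [NormedAddCommGroup E] [NormedSpace ℝ E]

/-- barycenter of a vertex list -/
noncomputable def bary (l : List E) : E := ((l.length : ℝ)⁻¹) • l.sum

/-- barycentric subdivision on chains of vertex lists of length `n` -/
noncomputable def sd : ℕ → (Ch E →ₗ[ZMod 2] Ch E)
  | 0 => LinearMap.id
  | n + 1 => ext (fun l => cone (bary l) (sd n (bdL l)))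

lemma sd_succ_single (n : ℕ) (l : List E) :
    sd (n + 1) (Finsupp.single l 1) = cone (bary l) (sd n (bdL l)) := by
  rw [sd, ext_single]

omit [NormedAddCommGroup E] [NormedSpace ℝ E] in
/-- faces: sublists of length one less -/
lemma bdL_supp : ∀ (l : List E) (n : ℕ), l.length = n + 1 →
    bdL l ∈ Finsupp.supported (ZMod 2) (ZMod 2) {l' | l'.Sublist l ∧ l'.length = n}
  | [], n, h => by simp at h
  | v :: l, n, h => by
    rw [bdL]
    refine Submodule.add_mem _ ?_ ?_
    · refine supp_single (P := fun l' => l'.Sublist (v :: l) ∧ l'.length = n) ⟨?_, ?_⟩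
      · exact List.sublist_cons_self v l
      · simpa using h
    · rcases l with _ | ⟨w, l⟩
      · simp [bdL]
      · obtain ⟨m, rfl⟩ : ∃ m, n = m + 1 := ⟨l.length, by simpa using h.symm⟩
        have ih := bdL_supp (w :: l) m (by simpa using h)
        refine supp_map (P := fun l' => l'.Sublist (w :: l) ∧ l'.length = m)
          (Q := fun l' => l'.Sublist (v :: w :: l) ∧ l'.length = m + 1) (cone v) _ ih ?_
        rintro l' ⟨h1, h2⟩
        rw [cone_single]
        refine supp_single (P := fun l' => l'.Sublist (v :: w :: l) ∧ l'.length = m + 1)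
          ⟨?_, ?_⟩
        · exact h1.cons_cons v
        · simp [h2]

omit [NormedAddCommGroup E] [NormedSpace ℝ E] in
lemma bd_supp {n : ℕ} {c : Ch E}
    (hc : c ∈ Finsupp.supported (ZMod 2) (ZMod 2) {l | l.length = n + 1}) :
    bd c ∈ Finsupp.supported (ZMod 2) (ZMod 2) {l | l.length = n} := by
  refine supp_map (P := fun l => l.length = n + 1) (Q := fun l => l.length = n) bd c hc ?_
  intro l hl
  rw [bd_single]
  exact supp_mono (fun l' h => h.2) (bdL_supp l n hl)

lemma sd_supp : ∀ (n : ℕ) (c : Ch E),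
    c ∈ Finsupp.supported (ZMod 2) (ZMod 2) {l | l.length = n} →
    sd n c ∈ Finsupp.supported (ZMod 2) (ZMod 2) {l | l.length = n}
  | 0, c, hc => hc
  | n + 1, c, hc => by
    refine supp_map (P := fun l => l.length = n + 1) (Q := fun l => l.length = n + 1) _ c hc ?_
    intro l hl
    rw [sd_succ_single]
    refine supp_map (P := fun l => l.length = n) (Q := fun l => l.length = n + 1) _ _
      (sd_supp n _ (supp_mono (fun l' h => h.2) (bdL_supp l n hl))) ?_
    intro l' hl'
    rw [cone_single]
    exact supp_single (P := fun l => l.length = n + 1) (by simp [hl'])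

lemma bd_sd_single : ∀ (n : ℕ) (l : List E), l.length = n + 1 →
    bd (sd (n + 1) (Finsupp.single l 1)) = sd n (bdL l) := by
  intro n
  induction n with
  | zero =>
    intro l hl
    rw [sd_succ_single, bd_cone]
    have : bd (sd 0 (bdL l)) = 0 := by
      rw [sd, LinearMap.id_apply, bd_bdL]
    rw [this, map_zero, add_zero]
  | succ n ih =>
    intro l hl
    have key : bd (sd (n + 1) (bdL l)) = 0 := by
      have h1 : (bd ∘ₗ sd (n + 1) : Ch E →ₗ[ZMod 2] Ch E) (bdL l) = (sd n ∘ₗ bd) (bdL l) := by
        refine lin_congr _ _ (P := fun l => l.length = n + 1) (bdL l)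
          (supp_mono (fun l' h => h.2) (bdL_supp l (n + 1) hl)) ?_
        intro l' hl'
        rw [LinearMap.comp_apply, LinearMap.comp_apply, ih l' hl', bd_single]
      rw [LinearMap.comp_apply, LinearMap.comp_apply, bd_bdL, map_zero] at h1
      exact h1
    rw [sd_succ_single, bd_cone, key, map_zero, add_zero]

lemma bd_sd (n : ℕ) (c : Ch E)
    (hc : c ∈ Finsupp.supported (ZMod 2) (ZMod 2) {l | l.length = n + 1}) :
    bd (sd (n + 1) c) = sd n (bd c) := by
  have h1 : (bd ∘ₗ sd (n + 1) : Ch E →ₗ[ZMod 2] Ch E) c = (sd n ∘ₗ bd) c := by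
    refine lin_congr _ _ (P := fun l => l.length = n + 1) c hc ?_
    intro l' hl'
    rw [LinearMap.comp_apply, LinearMap.comp_apply, bd_sd_single n l' hl', bd_single]
  exact h1

lemma bary_map (φ : E →ₗ[ℝ] E) (l : List E) : bary (l.map φ) = φ (bary l) := by
  simp [bary, map_list_sum]

lemma mp_sd (φ : E →ₗ[ℝ] E) : ∀ (n : ℕ) (c : Ch E), mp φ (sd n c) = sd n (mp φ c) := by
  intro n
  induction n with
  | zero => intro c; rfl
  | succ n ih =>
    intro c
    have : (mp φ ∘ₗ sd (n + 1) : Ch E →ₗ[ZMod 2] Ch E) = sd (n + 1) ∘ₗ mp φ := by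
      refine lin_ext _ _ fun l => ?_
      rw [LinearMap.comp_apply, LinearMap.comp_apply, sd_succ_single, mp_single, sd_succ_single,
        mp_cone, ih, mp_bdL, bary_map]
    exact LinearMap.congr_fun this c

/-- size and position of a simplex -/
def Sz (n : ℕ) (K : Set E) (δ : ℝ) (l : List E) : Prop :=
  l.length = n ∧ convexHull ℝ {x | x ∈ l} ⊆ K ∧ ∀ u ∈ l, ∀ v ∈ l, dist u v ≤ δ

lemma bary_mem {l : List E} (hl : l ≠ []) : bary l ∈ convexHull ℝ {x | x ∈ l} := by
  have hconv := convex_convexHull ℝ {x | x ∈ l}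
  have key : ∀ l' : List E, (∀ x ∈ l', x ∈ l) → l' ≠ [] → bary l' ∈ convexHull ℝ {x | x ∈ l} := by
    intro l'
    induction l' with
    | nil => intro _ h; exact absurd rfl h
    | cons v l' ih =>
      intro h _
      rcases eq_or_ne l' [] with h0 | h0
      · subst h0
        simp only [bary, List.length_singleton, Nat.cast_one, inv_one, List.sum_singleton,
          one_smul]
        exact subset_convexHull ℝ _ (h v (by simp))
      · have h1 := ih (fun x hx => h x (List.mem_cons_of_mem _ hx)) h0
        have h2 : v ∈ convexHull ℝ {x | x ∈ l} := subset_convexHull ℝ _ (h v (by simp))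
        have hlen : 0 < (l'.length : ℝ) := by
          exact_mod_cast List.length_pos_iff.mpr h0
        have h3 : bary (v :: l') = ((1 : ℝ) / (l'.length + 1)) • v +
            ((l'.length : ℝ) / (l'.length + 1)) • bary l' := by
          simp only [bary, List.length_cons, List.sum_cons, Nat.cast_add, Nat.cast_one, smul_add,
            smul_smul]
          congr 2
          · rw [one_div]
          · field_simp
        rw [h3]
        refine hconv h2 h1 (by positivity) (by positivity) ?_
        field_simp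
        ring
  exact key l (fun x hx => hx) hl

lemma dist_bary {l : List E} {δ : ℝ} (hδ : ∀ u ∈ l, ∀ v ∈ l, dist u v ≤ δ) {v : E} (hv : v ∈ l) :
    dist v (bary l) ≤ ((l.length : ℝ) - 1) / l.length * δ := by
  classical
  have hlen : 0 < (l.length : ℝ) := by
    exact_mod_cast List.length_pos_of_mem hv
  have key : ∀ l' : List E, (∀ u ∈ l', dist u v ≤ δ) →
      ‖l'.sum - (l'.length : ℝ) • v‖ ≤ l'.length * δ := by
    intro l'
    induction l' with
    | nil => intro _; simp
    | cons u l' ih =>
      intro h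
      have h1 := ih (fun x hx => h x (List.mem_cons_of_mem _ hx))
      have h2 := h u (by simp)
      have h3 : (u :: l').sum - ((u :: l').length : ℝ) • v =
          (u - v) + (l'.sum - (l'.length : ℝ) • v) := by
        simp only [List.sum_cons, List.length_cons, Nat.cast_add, Nat.cast_one, add_smul, one_smul]
        abel
      rw [h3]
      calc ‖(u - v) + (l'.sum - (l'.length : ℝ) • v)‖ ≤ ‖u - v‖ + ‖l'.sum - (l'.length : ℝ) • v‖ :=
            norm_add_le _ _
        _ ≤ δ + l'.length * δ := by rw [← dist_eq_norm]; linarith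
        _ = ((u :: l').length : ℝ) * δ := by
            simp only [List.length_cons, Nat.cast_add, Nat.cast_one]
            ring
  have hperm := List.perm_cons_erase hv
  have h1 := key (l.erase v) (fun u hu => hδ u (List.mem_of_mem_erase hu) v hv)
  have hsum : l.sum = v + (l.erase v).sum := by
    rw [hperm.sum_eq, List.sum_cons]
  have hlen2 : (l.length : ℝ) = (l.erase v).length + 1 := by
    rw [hperm.length_eq, List.length_cons]
    push_cast
    ring
  have h4 : bary l - v = (l.length : ℝ)⁻¹ • ((l.erase v).sum - ((l.erase v).length : ℝ) • v) := by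
    have h6 : (l.length : ℝ)⁻¹ • ((l.length : ℝ) • v) = v := by
      rw [smul_smul, inv_mul_cancel₀ hlen.ne', one_smul]
    have h7 : bary l - v = (l.length : ℝ)⁻¹ • (l.sum - (l.length : ℝ) • v) := by
      rw [bary, smul_sub, h6]
    rw [h7, hsum]
    congr 1
    have h8 : (l.length : ℝ) • v = v + ((l.erase v).length : ℝ) • v := by
      rw [hlen2, add_smul, one_smul, add_comm]
    rw [h8]
    abel
  rw [dist_comm, dist_eq_norm, h4, norm_smul, norm_inv, Real.norm_of_nonneg hlen.le]
  have h5 : ((l.length : ℝ) - 1) = (l.erase v).length := by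
    rw [hlen2]; ring
  rw [h5, div_mul_eq_mul_div, inv_mul_eq_div]
  gcongr

lemma sd_mesh : ∀ (n : ℕ) (δ : ℝ) (l : List E), 0 ≤ δ → l.length = n + 1 →
    (∀ u ∈ l, ∀ v ∈ l, dist u v ≤ δ) →
    sd (n + 1) (Finsupp.single l 1) ∈ Finsupp.supported (ZMod 2) (ZMod 2)
      {l' | Sz (n + 1) (convexHull ℝ {x | x ∈ l}) ((n : ℝ) / (n + 1) * δ) l'} := by
  intro n
  induction n with
  | zero =>
    intro δ l hδ0 hl hδ
    obtain ⟨v, rfl⟩ := List.length_eq_one_iff.mp hl
    rw [sd_succ_single]
    have h1 : sd 0 (bdL [v]) = Finsupp.single [] 1 := by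
      simp [sd, bdL]
    have h2 : bary [v] = v := by simp [bary]
    rw [h1, h2, cone_single]
    refine supp_single (P := fun l' => Sz (0 + 1) (convexHull ℝ {x | x ∈ [v]})
      (((0 : ℕ) : ℝ) / ((0 : ℕ) + 1) * δ) l') ⟨rfl, subset_rfl, ?_⟩
    intro a ha b hb
    rw [List.mem_singleton] at ha hb
    subst ha; subst hb
    simp
  | succ n ih =>
    intro δ l hδ0 hl hδ
    rw [sd_succ_single]
    have hlne : l ≠ [] := by
      rintro rfl
      simp at hl
    refine supp_map (P := fun l' => Sz (n + 1) (convexHull ℝ {x | x ∈ l})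
        ((n : ℝ) / (n + 1) * δ) l')
      (Q := fun l' => Sz (n + 1 + 1) (convexHull ℝ {x | x ∈ l})
        (((n + 1 : ℕ) : ℝ) / ((n + 1 : ℕ) + 1) * δ) l') _ _ ?_ ?_
    · refine supp_map (P := fun l' => l'.Sublist l ∧ l'.length = n + 1)
        (Q := fun l' => Sz (n + 1) (convexHull ℝ {x | x ∈ l}) ((n : ℝ) / (n + 1) * δ) l') _ _
        (bdL_supp l (n + 1) hl) ?_
      rintro l₁ ⟨h1, h2⟩
      refine supp_mono ?_ (ih δ l₁ hδ0 h2 (fun u hu v hv => hδ u (h1.subset hu) v (h1.subset hv)))
      rintro l' ⟨h3, h4, h5⟩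
      exact ⟨h3, h4.trans (convexHull_mono fun x hx => h1.subset hx), h5⟩
    · rintro l' ⟨h1, h2, h3⟩
      rw [cone_single]
      refine supp_single (P := fun l' => Sz (n + 1 + 1) (convexHull ℝ {x | x ∈ l})
        (((n + 1 : ℕ) : ℝ) / ((n + 1 : ℕ) + 1) * δ) l') ⟨by simp [h1], ?_, ?_⟩
      · refine convexHull_min ?_ (convex_convexHull ℝ _)
        intro x hx
        simp only [List.mem_cons, Set.mem_ofPred_eq] at hx
        rcases hx with rfl | hx
        · exact bary_mem hlne
        · exact h2 (subset_convexHull ℝ _ hx)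
      · have hfrac : (n : ℝ) / (n + 1) * δ ≤ ((n + 1 : ℕ) : ℝ) / ((n + 1 : ℕ) + 1) * δ := by
          refine mul_le_mul_of_nonneg_right ?_ hδ0
          rw [div_le_div_iff₀ (by positivity) (by positivity)]
          push_cast
          nlinarith
        have hb : ∀ w ∈ convexHull ℝ {x | x ∈ l},
            dist w (bary l) ≤ ((n + 1 : ℕ) : ℝ) / ((n + 1 : ℕ) + 1) * δ := by
          intro w hw
          have hsub : convexHull ℝ {x | x ∈ l} ⊆
              Metric.closedBall (bary l) (((n + 1 : ℕ) : ℝ) / ((n + 1 : ℕ) + 1) * δ) := by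
            refine convexHull_min ?_ (convex_closedBall _ _)
            intro x hx
            have := dist_bary hδ hx
            rw [hl] at this
            rw [Metric.mem_closedBall]
            refine this.trans (le_of_eq ?_)
            push_cast
            ring
          exact hsub hw
        have h0 : 0 ≤ ((n + 1 : ℕ) : ℝ) / ((n + 1 : ℕ) + 1) * δ := by positivity
        intro u hu v hv
        rw [List.mem_cons] at hu hv
        rcases hu with rfl | hu
        · rcases hv with rfl | hv
          · simpa using h0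
          · rw [dist_comm]
            exact hb v (h2 (subset_convexHull ℝ _ hv))
        · rcases hv with rfl | hv
          · exact hb u (h2 (subset_convexHull ℝ _ hu))
          · exact (h3 u hu v hv).trans hfrac

lemma sd_mesh' {n : ℕ} {K : Set E} {δ : ℝ} (hδ : 0 ≤ δ) {c : Ch E}
    (hc : c ∈ Finsupp.supported (ZMod 2) (ZMod 2) {l | Sz (n + 1) K δ l}) :
    sd (n + 1) c ∈ Finsupp.supported (ZMod 2) (ZMod 2)
      {l | Sz (n + 1) K ((n : ℝ) / (n + 1) * δ) l} := by
  refine supp_map (P := fun l => Sz (n + 1) K δ l)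
    (Q := fun l => Sz (n + 1) K ((n : ℝ) / (n + 1) * δ) l) _ c hc ?_
  rintro l ⟨h1, h2, h3⟩
  refine supp_mono ?_ (sd_mesh n δ l hδ h1 h3)
  rintro l' ⟨h4, h5, h6⟩
  exact ⟨h4, h5.trans h2, h6⟩

lemma sd_iter_mesh {n : ℕ} {K : Set E} {δ : ℝ} (hδ : 0 ≤ δ) {c : Ch E}
    (hc : c ∈ Finsupp.supported (ZMod 2) (ZMod 2) {l | Sz (n + 1) K δ l}) (M : ℕ) :
    (sd (n + 1))^[M] c ∈ Finsupp.supported (ZMod 2) (ZMod 2)
      {l | Sz (n + 1) K (((n : ℝ) / (n + 1)) ^ M * δ) l} := by
  induction M with
  | zero => simpa using hc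
  | succ M ih =>
    rw [Function.iterate_succ_apply']
    have := sd_mesh' (by positivity) ih
    rw [pow_succ', mul_assoc]
    exact this

lemma sd_iter_supp {n : ℕ} {c : Ch E}
    (hc : c ∈ Finsupp.supported (ZMod 2) (ZMod 2) {l | l.length = n}) (M : ℕ) :
    (sd n)^[M] c ∈ Finsupp.supported (ZMod 2) (ZMod 2) {l | l.length = n} := by
  induction M with
  | zero => simpa using hc
  | succ M ih =>
    rw [Function.iterate_succ_apply']
    exact sd_supp n _ ih

lemma bd_sd_iter {n : ℕ} {c : Ch E}
    (hc : c ∈ Finsupp.supported (ZMod 2) (ZMod 2) {l | l.length = n + 1}) (M : ℕ) :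
    bd ((sd (n + 1))^[M] c) = (sd n)^[M] (bd c) := by
  induction M with
  | zero => rfl
  | succ M ih =>
    rw [Function.iterate_succ_apply', Function.iterate_succ_apply', bd_sd n _ (sd_iter_supp hc M),
      ih]

lemma mp_sd_iter (φ : E →ₗ[ℝ] E) (n M : ℕ) (c : Ch E) :
    mp φ ((sd n)^[M] c) = (sd n)^[M] (mp φ c) := by
  induction M with
  | zero => rfl
  | succ M ih =>
    rw [Function.iterate_succ_apply', Function.iterate_succ_apply', mp_sd, ih]

lemma sd_iter_add (n M : ℕ) (c d : Ch E) :
    (sd n)^[M] (c + d) = (sd n)^[M] c + (sd n)^[M] d := by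
  induction M with
  | zero => rfl
  | succ M ih =>
    rw [Function.iterate_succ_apply', Function.iterate_succ_apply', Function.iterate_succ_apply',
      ih, map_add]

end Pool.Agent.H20.Hopf
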